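import Pool.Agent.MP_8be872_ag.H63.Final

namespace Pool.Agent.Results.MP_8be872_ag.Global

open Pool.Agent.MP_8be872_ag H38 H56 H63

/-- Factorization of the vertex function of a zero-dimensional quiver variety, the vertex function
being the cohomology of the moduli stack of quasimaps. -/
theorem result (Q : Quiv) (hQ : ∀ e, Q.hd e ≠ Q.tl e) (w v : Fin Q.n → ℕ)
    (hv : InOrbit Q w (fun i => v i)) :
    (negRoots Q w v).Finite ∧ ∀ D : Fin Q.n →₀ ℕ, (∃ κ, IsKap (w := w) (v := v) (D := D) κ) ∧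
    (∃ (n : ℕ) (f : Fin n → MvPolynomial (Ix Q w v D (Fin n)) ℂ) (φ : Fin n → G), IsAtlas f φ) ∧
    ∀ κ, IsKap (w := w) (v := v) (D := D) κ →
    ∀ (n : ℕ) (f : Fin n → MvPolynomial (Ix Q w v D (Fin n)) ℂ) (φ : Fin n → G), IsAtlas f φ →
      (∀ γ, qmCplx f φ γ) ∧
      (∀ g, free g → ∀ p, qmDim f φ (g - κ) p < Cardinal.aleph0) ∧
      (∃ C, ∀ g, free g → C < ofLex g 0 → qmEul f φ κ g = 0) ∧
      ∃ L : List G, (∀ β ∈ L, free β ∧ ofLex β 0 ≠ 0) ∧ ∀ g, free g → ∀ᶠ J in Filter.atTop,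
        (-1 : ℚ) ^ (∑ i, aExp Q w v i * D i) *
            shl L (qmEul f φ κ) (g + (∑ i, aExp Q w v i * D i) • tau) =
          ((L.map fun β => 1 - mon β).prod * MvPowerSeries.coeff D (rhs Q w v J)).coeff g :=
  qm Q hQ w v hv

end Pool.Agent.Results.MP_8be872_ag.Global
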