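import Pool.Agent.MP_8be872_ag.H56.Final
import Pool.Agent.MP_8be872_ag.H56.Geo2
import Pool.Agent.MP_8be872_ag.H59.Orbit

namespace Pool.Agent.Results.MP_8be872_ag.Vertex

open Pool.Agent.MP_8be872_ag H38 H56

/-- Factorization of the vertex function of a zero-dimensional quiver variety. -/
theorem result (Q : Quiv) (hQ : ∀ e, Q.hd e ≠ Q.tl e) (w v : Fin Q.n → ℕ)
    (hv : InOrbit Q w (fun i => v i)) :
    (∃ x, OnZ Q w v 0 x ∧ Stable Q w v x) ∧ (∃ F φ, Cuts Q w v F φ) ∧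
    (∀ d x, OnZ Q w v d x → Stable Q w v x → ∀ a : Bas Q v, 0 ≤ d a.1 a.2) ∧
    (negRoots Q w v).Finite ∧
    ∀ F φ, Cuts Q w v F φ → ∀ D : Fin Q.n →₀ ℕ,
      (∀ d ∈ types Q v D, ∀ g : G,
        (∀ p p', fixDim Q w v (fun i a => d i a) F φ g p p' < Cardinal.aleph0) ∧
        (Function.support fun β : G => (moving Q w v fun i a => d i a).coeff β *
          euler Q w v (fun i a => d i a) F φ (g - β)).Finite) ∧
      ∀ g : G, (∀ i a, ofLex g (3 * Nat.pair i a + 4) = 0) → ∀ᶠ J in Filter.atTop,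
        (-1 : ℚ) ^ (∑ i, aExp Q w v i * D i) *
            vcoeff Q w v F φ D (g + (∑ i, aExp Q w v i * D i) • tau) =
          (MvPowerSeries.coeff D (rhs Q w v J)).coeff g := by
  obtain ⟨h1, h2, h3, h4, h5⟩ := geo_of_orbit H59.orbit Q hQ w v hv
  refine ⟨h1, h2, h3, h4, fun F φ hF D => ⟨fun d hd g => ⟨fun p p' => ?_,
    ((h5 F φ hF D).1 d hd g).2⟩, (h5 F φ hF D).2⟩⟩
  haveI := ((h5 F φ hF D).1 d hd g).1 p p'
  exact Module.rank_lt_aleph0 ℂ (Hfix Q w v (fun i a => d i a) F φ g p p')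

end Pool.Agent.Results.MP_8be872_ag.Vertex
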